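import Pool.Agent.H.MP_b4a25c_gt.B

namespace Pool.Agent.Results.MP_40d5d3_al.Counter

open Pool.Agent.H.MP_b4a25c_gt
open scoped NNReal ENNReal

/-- The (finite) Carnot-Caratheodory distance as a real number. -/
noncomputable def d (p q : N) : ℝ := (ccDist p q).toReal

/-- Quasiisometry of `N` for the Carnot-Caratheodory distance. -/
def IsQI (f : N → N) : Prop :=
  ∃ L C : ℝ, 1 ≤ L ∧ 0 ≤ C ∧
    (∀ x y, L⁻¹ * d x y - C ≤ d (f x) (f y) ∧ d (f x) (f y) ≤ L * d x y + C) ∧
    ∀ y, ∃ x, d y (f x) ≤ C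

/-- Hausdorff distance in `[0, ∞]` for the Carnot-Caratheodory distance. -/
noncomputable def hausdorff (A B : Set N) : ℝ≥0∞ :=
  max (⨆ a ∈ A, ⨅ b ∈ B, ccDist a b) (⨆ b ∈ B, ⨅ a ∈ A, ccDist a b)

/-- `f` coarsely permutes the left cosets of `H`. -/
def CoarselyPermutes (f : N → N) (H : Subgroup N) : Prop :=
  ∃ D : ℝ≥0, ∀ g : N, ∃ h : N,
    hausdorff (f '' ((fun x => g * x) '' (H : Set N))) ((fun x => h * x) '' (H : Set N)) ≤ D

lemma cc_self (p : N) : ccDist p p = 0 := by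
  have hγ : IsHorizontal (fun _ => p) (fun _ => 0) := by
    rw [isHor_iff]
    refine ⟨ContDiffOn.absolutelyContinuousOnInterval (by fun_prop),
      Filter.Eventually.of_forall fun s _ => ?_⟩
    refine HasDerivAt.congr_deriv (hasDerivAt_const s _) (Prod.ext rfl ?_)
    ext i
    fin_cases i <;> simp [br]
  refine le_antisymm (iInf_le_of_le (fun _ => p) (iInf_le_of_le (fun _ => 0)
    (iInf_le_of_le ⟨hγ, rfl, rfl⟩ ?_))) (by simp)
  simp

lemma d_shear {c : ℝ} (hc : |c| ≤ 1) (p q : N) : d (shear c p) (shear c q) ≤ 4 * d p q := by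
  have := ENNReal.toReal_mono (ENNReal.mul_ne_top (by norm_num) (cc_finite p q).ne)
    (cc_shear hc p q)
  simpa [d] using this

theorem result :
    (∀ n : ℕ, 1 ≤ n → ∀ (G : Type) [Group G], IsEmpty (N ≃* Heis n × G)) ∧
    (∀ p q : N, ccDist p q < ⊤) ∧
    ∃ f : N → N, IsQI f ∧ ¬ CoarselyPermutes f ((⊤ : Subgroup N).lowerCentralSeries 1) := by
  refine ⟨fun n hn G _ => noHeis n hn G, cc_finite, shear 1,
    ⟨4, 0, by norm_num, le_rfl, fun p q => ⟨?_, ?_⟩, fun y => ⟨shear (-1) y, ?_⟩⟩, ?_⟩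
  · have := d_shear (c := -1) (by simp) (shear 1 p) (shear 1 q)
    have a : ∀ p : V1 × V2, shear (-1) (shear 1 p) = p := fun p => by
      simpa using shear_shear (-1) p
    rw [a p, a q] at this
    linarith
  · have := d_shear (c := 1) (by simp) p q
    linarith
  · rw [shear_shear 1 y]
    simp [d, cc_self]
  · rintro ⟨D, hD⟩
    obtain ⟨h, e⟩ := hD 1
    let t : ℝ := Real.exp (|h.1 0| + D + 1)
    let z : N := ((0, !₂[0, 0, t]) : V1 × V2)
    have m : shear 1 z ∈ shear 1 '' ((fun x => (1 : N) * x) ''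
        ((⊤ : Subgroup N).lowerCentralSeries 1 : Set N)) :=
      ⟨z, ⟨z, (mem_lcs z).2 rfl, one_mul z⟩, rfl⟩
    have e1 := (le_iSup₂_of_le (f := fun (a : N) (_ : a ∈ shear 1 '' ((fun x => (1 : N) * x) ''
        ((⊤ : Subgroup N).lowerCentralSeries 1 : Set N))) => ⨅ b ∈ (fun x => h * x) ''
        ((⊤ : Subgroup N).lowerCentralSeries 1 : Set N), ccDist a b) _ m le_rfl).trans
      ((le_max_left _ _).trans e)
    have v : (shear 1 z).1 0 = Real.log (1 + t ^ 2) := by simp [shear, hh, e0, z]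
    have ht : 1 ≤ t := Real.one_le_exp (by positivity)
    have lv : |h.1 0| + D + 1 ≤ Real.log (1 + t ^ 2) := by
      rw [← Real.log_exp (|h.1 0| + D + 1)]
      exact Real.log_le_log (Real.exp_pos _) (by change t ≤ _; nlinarith)
    have e2 : ENNReal.ofReal (D + 1) ≤ ⨅ b ∈ (fun x => h * x) ''
        ((⊤ : Subgroup N).lowerCentralSeries 1 : Set N), ccDist (shear 1 z) b := by
      refine le_iInf₂ ?_
      rintro _ ⟨w, hw, rfl⟩
      refine le_trans (ENNReal.ofReal_le_ofReal ?_) (cc_lower _ _)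
      rw [v]
      change _ ≤ |(h * w).1 0 - _|
      rw [mul_fst, (mem_lcs w).1 hw, add_zero, abs_sub_comm]
      have := le_abs_self (h.1 0)
      exact le_trans (by linarith) (le_abs_self _)
    have e3 := e2.trans e1
    rw [← ENNReal.ofReal_coe_nnreal, ENNReal.ofReal_le_ofReal_iff (by positivity)] at e3
    linarith

end Pool.Agent.Results.MP_40d5d3_al.Counter
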